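import Pool.Agent.P.MP_a76a9f_al.Univ

set_option autoImplicit false

namespace Pool.Agent.Results.MP_a76a9f_al.NeverDiscrete

universe u

/-- the sub-base of the restricted Zariski topology -/
def subbase (G : Type u) [Group G] : Set (Set G) :=
  {S | (∃ a b : G, b ^ 2 = 1 ∧ S = {x | x * b * x⁻¹ ≠ a * b * a⁻¹}) ∨
    (∃ b c : G, b ^ 2 = 1 ∧ c ^ 2 = 1 ∧ S = {x | (x * c * x⁻¹) * b * (x * c * x⁻¹)⁻¹ ≠ b})}

/-- The restricted Zariski topology of an infinite group is never discrete. -/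
theorem result : ∀ (G : Type u) [Group G] [Infinite G],
    ¬ ∀ S : Set G, @IsOpen G (TopologicalSpace.generateFrom (subbase G)) S := by
  intro G _ _ h
  let _ := TopologicalSpace.generateFrom (subbase G)
  have hb := TopologicalSpace.isTopologicalBasis_of_subbasis
    (t := TopologicalSpace.generateFrom (subbase G)) (s := subbase G) rfl
  obtain ⟨t, ⟨F, ⟨hF, hFs⟩, rfl⟩, h1, ht⟩ :=
    hb.exists_subset_of_mem_open (Set.mem_singleton (1 : G)) (h {1})
  have key : ∀ s ∈ F, ∃ pq : (G × G) ⊕ (G × G),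
      (∀ p, pq = Sum.inl p → p.1 ≠ p.2 ∧ ∀ x, x ∉ s → x * p.1 * x⁻¹ = p.2) ∧
      (∀ q, pq = Sum.inr q → ¬ Commute q.1 q.2 ∧ ∀ x, x ∉ s → Commute (x⁻¹ * q.1 * x) q.2) := by
    intro s hs
    have h1s := h1 s hs
    rcases hFs hs with ⟨a, b, -, rfl⟩ | ⟨b, c, -, -, rfl⟩
    · refine ⟨Sum.inl (b, a * b * a⁻¹), ?_, by simp⟩
      rintro p ⟨rfl⟩
      exact ⟨by simpa using h1s, fun x hx => by simpa using hx⟩
    · refine ⟨Sum.inr (b, c), by simp, ?_⟩
      rintro q ⟨rfl⟩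
      refine ⟨fun hc => h1s ?_, fun x hx => ?_⟩
      · have := hc.eq
        simp only at this
        calc 1 * c * 1⁻¹ * b * (1 * c * 1⁻¹)⁻¹ = (c * b) * c⁻¹ := by group
          _ = b := by rw [← this]; group
      · have hx' : x * c * x⁻¹ * b * (x * c * x⁻¹)⁻¹ = b := by simpa using hx
        show x⁻¹ * b * x * c = c * (x⁻¹ * b * x)
        calc x⁻¹ * b * x * c = x⁻¹ * (x * c * x⁻¹ * b * (x * c * x⁻¹)⁻¹) * x * c := by rw [hx']
          _ = c * (x⁻¹ * b * x) := by group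
  choose! f hf using key
  refine Pool.Agent.P.MP_a76a9f_al.not_cover_univ G (Sum.inl ⁻¹' (f '' F)) (Sum.inr ⁻¹' (f '' F))
    ((hF.image f).preimage Sum.inl_injective.injOn) ((hF.image f).preimage Sum.inr_injective.injOn)
    ?_ ?_ ?_
  · rintro p ⟨s, hs, e⟩
    exact ((hf s hs).1 p e).1
  · rintro q ⟨s, hs, e⟩
    exact ((hf s hs).2 q e).1
  · intro x hx
    have : ∃ s ∈ F, x ∉ s := by
      by_contra hc
      push Not at hc
      exact hx (ht (Set.mem_sInter.2 hc))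
    obtain ⟨s, hs, hxs⟩ := this
    rcases e : f s with p | q
    · exact Or.inl ⟨p, ⟨s, hs, e⟩, ((hf s hs).1 p e).2 x hxs⟩
    · exact Or.inr ⟨q, ⟨s, hs, e⟩, ((hf s hs).2 q e).2 x hxs⟩

end Pool.Agent.Results.MP_a76a9f_al.NeverDiscrete
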