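import Pool.Agent.P.MP_a76a9f_al.RelC

set_option autoImplicit false

namespace Pool.Agent.Results.MP_a76a9f_al.ThirdZariski

universe u

/-- the value at `x` of the word with the given signs and coefficients -/
def word {G : Type u} [Group G] (l : List (ℤˣ × G)) (x : G) : G :=
  (l.map fun p => x ^ (p.1 : ℤ) * p.2).prod

/-- the sub-basic Zariski open sets of words of length at most three -/
def third (G : Type u) [Group G] : Set (Set G) :=
  {S | ∃ l : List (ℤˣ × G), l.length ≤ 3 ∧ S = {x | word l x ≠ 1}}

open Pool.Agent.P.MP_a76a9f_al in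
/-- Every infinite normal subgroup carries a free idempotent ultrafilter which converges to `1`
in the third Zariski topology. -/
theorem result : ∀ (G : Type u) [Group G] (N : Subgroup G), N.Normal → (N : Set G).Infinite →
    ∃ η : Ultrafilter G, (N : Set G) ∈ η ∧ (∀ F : Set G, F.Finite → F ∉ η) ∧
      (∀ A ∈ η, {x | {y | x * y ∈ A} ∈ η} ∈ η) ∧
      ∀ U : Set G, @IsOpen G (TopologicalSpace.generateFrom (third G)) U → 1 ∈ U → U ∈ η := by
  intro G _ N _ hN
  obtain ⟨η, ⟨h1, h2, h3⟩, hη⟩ := rel_idem hN
  refine ⟨η, h1, fun F hF hm => ?_, fun A hA => ?_, fun U hU => ?_⟩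
  · obtain ⟨x, -, e⟩ := Ultrafilter.eq_pure_of_finite_mem hF hm
    have := h2 x
    rw [e] at this
    exact this rfl
  · rw [← hη] at hA
    exact (Ultrafilter.eventually_mul η η _).1 hA
  · induction hU with
    | basic S hS =>
      obtain ⟨l, hl, rfl⟩ := hS
      intro h
      by_contra hc
      exact h (word_list hη h3 l (Or.inl hl) (Filter.mem_of_superset
        (Ultrafilter.compl_mem_iff_notMem.2 hc) fun x hx => not_not.1 hx))
    | univ => exact fun _ => Filter.univ_mem
    | inter S T _ _ hS hT => exact fun h => Filter.inter_mem (hS h.1) (hT h.2)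
    | sUnion 𝒮 _ ih =>
      rintro ⟨S, hS, h⟩
      exact Filter.mem_of_superset (ih S hS h) (Set.subset_sUnion_of_mem hS)

end Pool.Agent.Results.MP_a76a9f_al.ThirdZariski
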